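import Pool.Agent.V5helper41.PD.Asm
import Pool.Agent.V5helper31.PD.GAL
import Pool.Agent.V5helper5.PD.NOR
import Pool.Agent.V5helper38.PD.REC
import Pool.Agent.V5helper38.PD.ADN
import Pool.Agent.V5helper38.PD.FIN
import Pool.Agent.V5helper81.PD.SMU
import Pool.Agent.V5helper54.PD.NIN
import Pool.Agent.V5helper82.PD.LVL
import Pool.Agent.V5helper69.PD.CYC
import Pool.Agent.V5helper70.PD.PRI
import Pool.Agent.V5helper58.PD.CC
import Pool.Agent.V5helper58.PD.NAB
import Pool.Agent.V5helper77.PD.KUM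
import Pool.Agent.V5helper22.PD.CONj

/-!
# Project PD: the jobs together
-/

set_option autoImplicit false

namespace V5helper41.PD

theorem t_GAL' : S_GAL := V5helper31.PD.t_GAL
theorem t_NOR' : S_NOR := V5helper5.PD.t_NOR t_GAL'
theorem t_REC' : S_REC := V5helper38.PD.t_REC t_GAL'
theorem t_ADN' : S_ADN := V5helper38.PD.t_ADN
theorem t_FIN' : S_FIN := V5helper38.PD.t_FIN
theorem t_SMU' : S_SMU := V5helper81.PD.t_SMU
theorem t_NIN' : S_NIN := V5helper54.PD.t_NIN
theorem t_LVL' : S_LVL := V5helper82.PD.t_LVL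
theorem t_CYC' : S_CYC := V5helper69.PD.t_CYC
theorem t_PRI' : S_PRI := V5helper70.PD.t_PRI t_GAL' t_NOR'
theorem t_CC' : S_CC := V5helper58.PD.t_CC
theorem t_NAB' : S_NAB := V5helper58.PD.t_NAB t_GAL' t_CC'
theorem t_KUM' : S_KUM := V5helper77.PD.t_KUM t_GAL'
theorem t_CON' : S_CON := V5helper22.PD.t_CON t_GAL' t_CC'

end V5helper41.PD
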