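import Pool.Agent.V5helper41.PD.Stm
import Pool.Agent.H58R.Loc

/-!
# Project PD: assembly
-/

set_option autoImplicit false

namespace V5helper41.PD

open IntermediateField Polynomial
open Pool.Agent.H58P (Qb ht)
open Pool.Agent.W237.RK

lemma isInt (F : GF) (α : Qb) : IsIntegral F α := by
  have : Algebra.IsAlgebraic ℚ Qb := AlgebraicClosure.isAlgebraic ℚ
  have h : IsIntegral ℚ α := (Algebra.IsAlgebraic.isAlgebraic α).isIntegral
  exact h.tower_top

lemma isIntQ (α : Qb) : IsIntegral ℚ α := by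
  have : Algebra.IsAlgebraic ℚ Qb := AlgebraicClosure.isAlgebraic ℚ
  exact (Algebra.IsAlgebraic.isAlgebraic α).isIntegral

lemma deg_mono {F F' : GF} (h : F ≤ F') (α : Qb) :
    (minpoly F' α).natDegree ≤ (minpoly F α).natDegree := by
  set φ : F →+* F' := (IntermediateField.inclusion h).toRingHom with hφ
  have h1 : aeval α ((minpoly F α).map φ) = 0 := by
    rw [aeval_def, eval₂_map]
    have : (algebraMap F' Qb).comp φ = algebraMap F Qb := by ext x; rfl
    rw [this]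
    exact minpoly.aeval F α
  have hm := (minpoly.monic (isInt F α)).map φ
  have h2 := Polynomial.natDegree_le_natDegree (minpoly.min F' α hm h1)
  rwa [(minpoly.monic (isInt F α)).natDegree_map] at h2

lemma deg_le (F : GF) (α : Qb) : (minpoly F α).natDegree ≤ (minpoly ℚ α).natDegree := by
  have h1 : aeval α ((minpoly ℚ α).map (algebraMap ℚ F)) = 0 := by
    rw [aeval_map_algebraMap]
    exact minpoly.aeval ℚ α
  have hm := (minpoly.monic (isIntQ α)).map (algebraMap ℚ F)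
  have h2 := Polynomial.natDegree_le_natDegree (minpoly.min F α hm h1)
  rwa [(minpoly.monic (isIntQ α)).natDegree_map] at h2

lemma deg_pos (F : GF) (α : Qb) : 0 < (minpoly F α).natDegree :=
  minpoly.natDegree_pos (isInt F α)

lemma deg_one {F : GF} {α : Qb} (h : α ∈ F) : (minpoly F α).natDegree = 1 := by
  have : α = algebraMap F Qb ⟨α, h⟩ := rfl
  rw [this, minpoly.eq_X_sub_C]
  simp

lemma deg_inv (α : Qb) : (minpoly ℚ α⁻¹).natDegree = (minpoly ℚ α).natDegree := by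
  rw [← IntermediateField.adjoin.finrank (isIntQ α), ← IntermediateField.adjoin.finrank (isIntQ α⁻¹)]
  have : ℚ⟮α⁻¹⟯ = ℚ⟮α⟯ := by
    apply le_antisymm
    · rw [IntermediateField.adjoin_simple_le_iff]
      exact inv_mem (IntermediateField.mem_adjoin_simple_self ℚ α)
    · rw [IntermediateField.adjoin_simple_le_iff]
      have := inv_mem (IntermediateField.mem_adjoin_simple_self ℚ α⁻¹)
      rwa [inv_inv] at this
  rw [this]

/-- Smyth's theorem with a weaker constant, for all numbers not conjugate to their inverse -/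
theorem smyth (hU : S_SMU) (hI : S_NIN) (α : Qb) (h0 : α ≠ 0)
    (hr : aeval α⁻¹ (minpoly ℚ α) ≠ 0) :
    Real.log 1.28 ≤ (minpoly ℚ α).natDegree * NumberField.absLogHeight₁ α := by
  by_cases hi : IsIntegral ℤ α
  · by_cases hi' : IsIntegral ℤ α⁻¹
    · exact hU α h0 hi hi' hr
    · have h1 := hI α⁻¹ hi'
      rw [deg_inv, Pool.Agent.H58P.absLogHeight₁_eq, Pool.Agent.H58R.ht_inv α h0,
        ← Pool.Agent.H58P.absLogHeight₁_eq] at h1
      exact (Real.log_le_log (by norm_num) (by norm_num)).trans h1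
  · exact (Real.log_le_log (by norm_num) (by norm_num)).trans (hI α hi)

/-- the height bound for primitive numbers outside a stable field containing all roots of unity -/
theorem outside (hR : S_REC) (hU : S_SMU) (hI : S_NIN) (A : ℕ) (hA0 : 0 < A)
    (hA : ∀ α : Qb, α ≠ 0 → ¬ Tor α →
      1 / ((A : ℝ) * ((minpoly Kmu α).natDegree : ℝ) ^ A) ≤ NumberField.absLogHeight₁ α)
    (α : Qb) (h0 : α ≠ 0) (ht0 : ¬ Tor α) (hP : Prim α) :
    min (Real.log 1.28) (1 / ((A : ℝ) * 400 ^ A)) ≤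
      (minpoly ℚ α).natDegree * NumberField.absLogHeight₁ α := by
  have hd1 : (1 : ℝ) ≤ (minpoly ℚ α).natDegree := by
    exact_mod_cast minpoly.natDegree_pos (isIntQ α)
  have hh0 : 0 ≤ NumberField.absLogHeight₁ α := by
    rw [Pool.Agent.H58P.absLogHeight₁_eq]
    exact Pool.Agent.H58R.ht_nonneg α
  by_cases hr : aeval α⁻¹ (minpoly ℚ α) = 0
  · have h2 : (minpoly ℚ α).natDegree ≤ 2 := (hR α h0 hP hr).resolve_left ht0
    have h3 : (minpoly Kmu α).natDegree ≤ 400 := (deg_le Kmu α).trans (h2.trans (by norm_num))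
    have h4 := hA α h0 ht0
    have hK1 : (1 : ℝ) ≤ (minpoly Kmu α).natDegree := by exact_mod_cast deg_pos Kmu α
    have hA1 : (0 : ℝ) < A := by exact_mod_cast hA0
    have h5 : 1 / ((A : ℝ) * 400 ^ A) ≤ 1 / ((A : ℝ) * ((minpoly Kmu α).natDegree : ℝ) ^ A) := by
      apply one_div_le_one_div_of_le
      · positivity
      · gcongr
        exact_mod_cast h3
    refine (min_le_right _ _).trans (h5.trans (h4.trans ?_))
    nlinarith
  · exact (min_le_left _ _).trans (smyth hU hI α h0 hr)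

lemma kmu_stable : Stable Kmu := by
  intro σ x hx
  have h1 : Kmu ≤ Kmu.comap (σ : Qb →ₐ[ℚ] Qb) := by
    rw [Kmu, adjoin_le_iff]
    rintro z ⟨n, hn, hz⟩
    refine subset_adjoin _ _ ⟨n, hn, ?_⟩
    show (σ z) ^ n = 1
    rw [← map_pow, hz, map_one]
  exact h1 hx

/-- numbers in `ℚ(⟨a⟩_div)` -/
theorem inside (hN : S_NOR) (hL : S_LVL) (hC : S_CYC) (hPr : S_PRI) (hNAB : S_NAB) (hK : S_KUM)
    (hCon : S_CON) (hF : S_FIN) (A : ℕ) (hA0 : 0 < A)
    (hA : ∀ α : Qb, α ≠ 0 → ¬ Tor α →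
      1 / ((A : ℝ) * ((minpoly Kmu α).natDegree : ℝ) ^ A) ≤ NumberField.absLogHeight₁ α)
    (a : ℕ) (ha : Squarefree a) (α : Qb) (h0 : α ≠ 0) (hP : Prim α)
    (hnd : ¬ ∃ m : ℕ, 0 < m ∧ ∃ k : ℤ, α ^ m = (a : Qb) ^ k)
    (hin : α ∈ adjoin ℚ {y : Qb | ∃ n : ℕ, 0 < n ∧ ∃ j : ℤ, y ^ n = (a : Qb) ^ j}) :
    min (1 / 4000) (1 / ((A : ℝ) * 400 ^ A)) ≤ NumberField.absLogHeight₁ α := by
  have ht0 : ¬ Tor α := by
    rintro ⟨n, hn, h1⟩
    exact hnd ⟨n, hn, 0, by rw [h1, zpow_zero]⟩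
  have hA1 : (0 : ℝ) < A := by exact_mod_cast hA0
  have small : (minpoly Kmu α).natDegree ≤ 400 →
      min (1 / 4000) (1 / ((A : ℝ) * 400 ^ A)) ≤ NumberField.absLogHeight₁ α := by
    intro h3
    have h4 := hA α h0 ht0
    have hK1 : (1 : ℝ) ≤ (minpoly Kmu α).natDegree := by exact_mod_cast deg_pos Kmu α
    have h5 : 1 / ((A : ℝ) * 400 ^ A) ≤ 1 / ((A : ℝ) * ((minpoly Kmu α).natDegree : ℝ) ^ A) := by
      apply one_div_le_one_div_of_le
      · positivity
      · gcongr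
        exact_mod_cast h3
    exact (min_le_right _ _).trans (h5.trans h4)
  by_cases hmu : α ∈ Kmu
  · exact small (by rw [deg_one hmu]; norm_num)
  -- `a ≥ 2`
  have ha2 : 2 ≤ a := by
    by_contra hcon
    have ha1 : a = 1 := by
      have : a ≠ 0 := ha.ne_zero
      omega
    apply hmu
    have h1 : adjoin ℚ {y : Qb | ∃ n : ℕ, 0 < n ∧ ∃ j : ℤ, y ^ n = (a : Qb) ^ j} ≤ Kmu := by
      rw [adjoin_le_iff]
      rintro z ⟨n, hn, j, hz⟩
      refine subset_adjoin _ _ ⟨n, hn, ?_⟩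
      rw [hz, ha1, Nat.cast_one, one_zpow]
    exact h1 hin
  have hd0 : 0 < (minpoly ℚ α).natDegree := minpoly.natDegree_pos (isIntQ α)
  obtain ⟨n, θ, hn, hdn, hθ, hαθ⟩ := hL a ha2 α hin _ hd0
  obtain ⟨s₀, hs₀, hgen⟩ := hC a n θ ha2 hn hθ
  obtain ⟨p, hp, hpd, hper⟩ := hPr a n θ ha2 hn hθ s₀ hs₀ hgen α hP hαθ hmu
  rw [hpd] at hdn
  by_cases hp400 : p ≤ 400
  · exact small ((deg_le Kmu α).trans (hpd.le.trans hp400))
  push Not at hp400
  have hp2 : p ≠ 2 := by omega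
  have hρ : (θ ^ (n / p)) ^ p = (a : Qb) := by
    rw [← pow_mul, Nat.div_mul_cancel hdn, hθ]
  have hρK : θ ^ (n / p) ∉ Kmu := hNAB a p _ ha2 ha hp hp2 hρ
  have hαρ := hK a n p θ ha2 hn hθ hp hdn s₀ hs₀ hgen hρK α hαθ hper
  obtain ⟨-, hconj⟩ := hN Kmu α kmu_stable hP hmu
  obtain ⟨ρ', hρ', hαρ'⟩ := hCon a p _ α ha2 hp hp2 hρ hαρ hconj
  exact (min_le_left _ _).trans (hF a p ρ' α ha2 ha hp hp400 hρ' hαρ' h0 hnd)

end V5helper41.PD
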