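import Mathlib
import Pool.Agent.W237.RK.Defs

/-!
# Project PD (MP_f61260_nt, Rémond's inequality for numbers without intermediate fields): jobs

`Qb = AlgebraicClosure ℚ`, `Aut = Qb ≃ₐ[ℚ] Qb`, `GF = IntermediateField ℚ Qb`,
`Fix F σ = ∀ x ∈ F, σ x = x`, `Tor x = ∃ n > 0, x ^ n = 1` (all from `Pool.Agent.W237.RK.Defs`).

General tool: an element of `Qb` fixed by all `σ` with `Fix F σ` is in `F` (`Qb / F` is Galois,
`InfiniteGalois.fixedField_fixingSubgroup` or `IsGalois.mem_bot_iff_fixed`).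
-/

set_option autoImplicit false

namespace V5helper41.PD

open IntermediateField Polynomial
open Pool.Agent.H58P (Qb)
open Pool.Agent.W237.RK

/-- stable under all automorphisms -/
def Stable (L : GF) : Prop := ∀ σ : Aut, ∀ x ∈ L, σ x ∈ L

/-- no field strictly between `ℚ` and `ℚ(α)` -/
def Prim (α : Qb) : Prop := ∀ F : GF, F ≤ ℚ⟮α⟯ → F = ⊥ ∨ F = ℚ⟮α⟯

/-- the field generated by all roots of unity -/
noncomputable def Kmu : GF := adjoin ℚ {y : Qb | ∃ n : ℕ, 0 < n ∧ y ^ n = 1}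

/-- the field `ℚ(μ_∞, θ)` -/
noncomputable def Kx (θ : Qb) : GF := Kmu ⊔ ℚ⟮θ⟯

/-- **job GAL** (20 lines): the Galois correspondence in the form used below. -/
def S_GAL : Prop := ∀ (F : GF) (x : Qb), (∀ σ : Aut, Fix F σ → σ x = x) → x ∈ F

/-- **job NOR** (100 lines), uses `S_GAL`.
Proof. `ℚ(α) ∩ L = ℚ`: by `Prim` it is `⊥` or `ℚ(α)`, and `α ∉ L`. Let `f = minpoly L α`. For
`g ∈ Aut` with `g α = α` (equivalently `Fix ℚ⟮α⟯ g`), the polynomial `g f` (coefficients again in `L`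
by `Stable`) is monic, of the same degree and kills `α`, so `g f = f` (uniqueness of the minimal
polynomial; or: `f ∣ g f`). So the coefficients of `f` are in `L ∩ ℚ(α) = ℚ`; hence `f` comes from a
polynomial over `ℚ` killing `α`, so `deg minpoly ℚ α ≤ deg f`; the other inequality is standard, and
`minpoly L α = (minpoly ℚ α).map`. Second part: `g α` is a root of `minpoly ℚ α`, hence of
`minpoly L α`, so there is an `L`-automorphism `s` of `Qb` with `s α = g α`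
(`Normal`, e.g. `minpoly.exists_algEquiv_of_root'`), and `s.restrictScalars ℚ` is in `Fix L`. -/
def S_NOR : Prop := ∀ (L : GF) (α : Qb), Stable L → Prim α → α ∉ L →
  (minpoly L α).natDegree = (minpoly ℚ α).natDegree ∧ ∀ g : Aut, ∃ s : Aut, Fix L s ∧ s α = g α

/-- **job REC** (60 lines), uses `S_GAL`.
Proof. There is `σ ∈ Aut` with `σ α = α⁻¹` (`α⁻¹` is a conjugate of `α`). `β = α + α⁻¹ ∈ ℚ(α)` is
fixed by `σ`, so `σ` fixes `ℚ(β)`. By `Prim` for `ℚ(β)`: if `ℚ(β) = ℚ(α)` then `α⁻¹ = σ α = α`, so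
`α² = 1`; if `ℚ(β) = ⊥` then `β = b ∈ ℚ` and `α` is a root of `X² - b X + 1`. -/
def S_REC : Prop := ∀ α : Qb, α ≠ 0 → Prim α → aeval α⁻¹ (minpoly ℚ α) = 0 →
  Tor α ∨ (minpoly ℚ α).natDegree ≤ 2

/-- **job SMU** (100 lines): Smyth's bound for nonreciprocal units, in terms of the height. Import
`Pool.Agent.R976.UG.Bounds` (theorem `nonrecip`: `1.28 ≤ MM x` for `x : ℂ` integral with integral
inverse and `aeval x⁻¹ (minpoly ℤ x) ≠ 0`, `MM x` = Mahler measure of `minpoly ℤ x` =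
`∏ a ∈ conjs x, max 1 ‖a‖`, `MM_prod` in `Pool.Agent.TH53.UG1`).
Proof. Let `φ : Qb →+* ℂ` and `x = φ α`; `minpoly ℤ x = minpoly ℤ α`. With `K = ℚ(α)`, of degree
`d = deg minpoly ℚ α`: `d * absLogHeight₁ α = logHeight₁ (gen)` (`NumberField.absLogHeight₁`,
`absMulHeight₁`, see `absLogHeight₁_general` in `Pool.Agent.H58P.Ht`), and `mulHeight₁` of the
generator is the product over all places of `max 1 |α|_v`; finite places contribute at least `1`, the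
infinite places contribute `∏_{φ : K → ℂ} max 1 ‖φ α‖ = MM x`. -/
def S_SMU : Prop := ∀ α : Qb, α ≠ 0 → IsIntegral ℤ α → IsIntegral ℤ α⁻¹ →
  aeval α⁻¹ (minpoly ℚ α) ≠ 0 →
  Real.log 1.28 ≤ (minpoly ℚ α).natDegree * NumberField.absLogHeight₁ α

/-- **job NIN** (100 lines).
Proof. `K = ℚ(α)`, `d * absLogHeight₁ α = logHeight₁ (gen)` as in `SMU`. As `α` is not integral, there
is a finite place `v` with `|α|_v > 1`, and then `|α|_v ≥ N(v) ≥ 2` (values of the normalized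
absolute value are powers of `N(v)`); all the other factors of `mulHeight₁` are at least `1`. -/
def S_NIN : Prop := ∀ α : Qb, ¬ IsIntegral ℤ α →
  Real.log 2 ≤ (minpoly ℚ α).natDegree * NumberField.absLogHeight₁ α

/-- **job ADN** (60 lines): import `Pool.Agent.Results.MP_f61260_nt.ConjugateProducts`.
Proof. Its theorem `result` for `K = ⊥`, `Γ = ⊥`, `P = ∅`: `A`. First part for `F = ⊥`, `ξ = α`,
`r = 1`, `σ = id`, `e = 1`, `γ = 1`: `¬ InDivisionGroup ⊥ α` is `¬ Tor α`, and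
`smoothRootField ⊥ ⊥ ∅` is `Kmu` (with `P = ∅` only `n = 1` occurs, `n`-th roots of `1`). -/
def S_ADN : Prop := ∃ A : ℕ, 0 < A ∧ ∀ α : Qb, α ≠ 0 → ¬ Tor α →
  1 / ((A : ℝ) * ((minpoly Kmu α).natDegree : ℝ) ^ A) ≤ NumberField.absLogHeight₁ α

/-- **job LVL** (70 lines).
Proof. The set of the `x` which are in `Kx θ` for some `n`, `θ` as below is a field: directed, as
for `n ∣ n'` (both positive) and `θ ^ n = a`, `θ' ^ n' = a` one has `θ = ζ * θ' ^ (n'/n)`, `ζ` an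
`n`-th root of unity, so `Kx θ ≤ Kx θ'`. It contains the generators: `y ^ k = a ^ j` (`j : ℤ`) gives
`y = ζ * θ ^ j` if `θ ^ k = a`. -/
def S_LVL : Prop := ∀ (a : ℕ), 2 ≤ a → ∀ α : Qb,
  α ∈ adjoin ℚ {y : Qb | ∃ n : ℕ, 0 < n ∧ ∃ j : ℤ, y ^ n = (a : Qb) ^ j} → ∀ m : ℕ, 0 < m →
    ∃ (n : ℕ) (θ : Qb), 0 < n ∧ m ∣ n ∧ θ ^ n = (a : Qb) ∧ α ∈ Kx θ

/-- **job CYC** (80 lines).
Proof. `{s θ / θ : Fix Kmu s}` is a subgroup of the (finite cyclic) group of `n`-th roots of unity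
(`s` fixes roots of unity, so `s s' θ / θ = (s θ / θ) (s' θ / θ)`); take `s₀` such that
`s₀ θ / θ` generates it. Then `s θ = (s₀ ^ j) θ` for some `j`, and both fix `Kmu`, so they agree on
`Kx θ` (the equalizer of two automorphisms is a field). -/
def S_CYC : Prop := ∀ (a n : ℕ) (θ : Qb), 2 ≤ a → 0 < n → θ ^ n = (a : Qb) →
  ∃ s₀ : Aut, Fix Kmu s₀ ∧ ∀ s : Aut, Fix Kmu s → ∃ j : ℕ, ∀ x ∈ Kx θ, s x = (s₀ ^ j) x

/-- **job PRI** (130 lines), uses `S_GAL`, `S_NOR` (with `L = Kmu`, which is `Stable`).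
Proof. `Kmu` and `Kx θ` are stable under `Aut` (`σ θ = ζ θ`). By `S_NOR` the conjugates of `α` over
`ℚ` are the `s α`, `Fix Kmu s`, so they are the `(s₀ ^ j) α`. Let `d` be the least positive period of
`α` under `s₀` (it exists: finitely many conjugates); then the conjugates are the `d` numbers
`(s₀ ^ i) α`, `i < d`, so `deg minpoly ℚ α = d`, and `d ≠ 1` as otherwise `α ∈ Kmu` by `S_GAL`. Let
`q` be a prime dividing `d`, and `f = ∏_{i < d/q} (X - (s₀ ^ (q i)) α)`. If `g ∈ Aut` with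
`g α = (s₀ ^ (q k)) α`, then `g` permutes the numbers `(s₀ ^ (q i)) α`, `i ∈ ℕ`: `g s₀ g⁻¹` fixes
`Kmu`, so agrees on `Kx θ` with some `s₀ ^ u`, and `g (s₀ ^ (q i)) α = (g s₀ g⁻¹) ^ (q i) (g α) =
(s₀ ^ (u q i + q k)) α`. So `g` fixes the coefficients of `f`. Applied to the `g` with `g α = α`:
the coefficients of `f` are in `ℚ(α)` (`S_GAL`). Let `L` be the field generated by them;
`L = ⊥` would give a polynomial over `ℚ` of degree `d/q < d` with root `α`; so `L = ℚ(α)` by `Prim`,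
and `g = s₀ ^ q` fixes `L`, so `(s₀ ^ q) α = α`, `d ∣ q`, `d = q`. -/
def S_PRI : Prop := ∀ (a n : ℕ) (θ : Qb), 2 ≤ a → 0 < n → θ ^ n = (a : Qb) → ∀ s₀ : Aut,
  Fix Kmu s₀ → (∀ s : Aut, Fix Kmu s → ∃ j : ℕ, ∀ x ∈ Kx θ, s x = (s₀ ^ j) x) →
  ∀ α : Qb, Prim α → α ∈ Kx θ → α ∉ Kmu →
    ∃ p : ℕ, p.Prime ∧ (minpoly ℚ α).natDegree = p ∧ ∀ j : ℕ, (s₀ ^ j) α = α ↔ p ∣ j

/-- **job NAB** (70 lines), uses `S_GAL`.
Proof. Suppose `ρ ∈ Kmu`. All automorphisms commute on `Kmu` (they act on the roots of unity by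
powers), and there is `c ∈ Aut` with `c ζ = ζ⁻¹` for all roots of unity `ζ` (complex conjugation for
an embedding of `Qb` in `ℂ`: `S_CON` below asks for the same; it may be proved with an
embedding `φ : Qb → ℂ`, whose image is stable under conjugation, being the set of the algebraic
numbers). `c ρ = η ρ` with `η ^ p = 1`; with `ρ' = η ^ ((p+1)/2) ρ` one gets `c ρ' = ρ'`,
`ρ' ^ p = a`, `ρ' ∈ Kmu`. As `a` is squarefree and `≥ 2`, it is no `p`-th power in `ℚ`, so `ρ' ∉ ℚ`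
and there is `g` with `g ρ' = ω ρ' ≠ ρ'`, `ω ^ p = 1`. `c g ρ' = ω⁻¹ ρ'` and `g c ρ' = ω ρ'`, so
`ω² = 1` and `ω = 1` as `p` is odd: contradiction. -/
def S_NAB : Prop := ∀ (a p : ℕ) (ρ : Qb), 2 ≤ a → Squarefree a → p.Prime → p ≠ 2 →
  ρ ^ p = (a : Qb) → ρ ∉ Kmu

/-- **job CC** (50 lines): complex conjugation. Proof: see `S_NAB`. -/
def S_CC : Prop := ∃ c : Aut, ∀ (ζ : Qb) (n : ℕ), 0 < n → ζ ^ n = 1 → c ζ = ζ⁻¹

/-- **job KUM** (50 lines), uses `S_GAL`.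
Proof. `ρ = θ ^ (n/p)`. `s₀ ρ = ω ρ` with `ω ^ p = 1`, and `ω ≠ 1`: otherwise all `s` with `Fix Kmu s`
fix `ρ` and `ρ ∈ Kmu`. Let `Fix (Kx ρ) g`. Then `g` agrees on `Kx θ` with some `s₀ ^ j`, and
`ρ = g ρ = ω ^ j ρ`, so `p ∣ j` and `g α = (s₀ ^ j) α = α`. Now `S_GAL`. -/
def S_KUM : Prop := ∀ (a n p : ℕ) (θ : Qb), 2 ≤ a → 0 < n → θ ^ n = (a : Qb) → p.Prime → p ∣ n →
  ∀ s₀ : Aut, Fix Kmu s₀ → (∀ s : Aut, Fix Kmu s → ∃ j : ℕ, ∀ x ∈ Kx θ, s x = (s₀ ^ j) x) →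
  θ ^ (n / p) ∉ Kmu → ∀ α : Qb, α ∈ Kx θ → (∀ j : ℕ, (s₀ ^ j) α = α ↔ p ∣ j) →
    α ∈ Kx (θ ^ (n / p))

/-- **job CON** (120 lines), uses `S_GAL`, `S_CC`.
Proof. The hypothesis `h` says: for every `g ∈ Aut` there is `s` with `Fix Kmu s` and `s α = g α`.
(i) Apply it to `c` (`S_CC`): `s α = c α`; `c₁ = s⁻¹ c` fixes `α` and inverts all roots of unity.
`c₁ ρ = η ρ`, `η ^ p = 1`; put `ρ' = η ^ ((p+1)/2) ρ`; then `c₁ ρ' = ρ'`, `ρ' ^ p = a`,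
`Kx ρ' = Kx ρ ∋ α`. (ii) Claim `α ∈ ℚ(ρ')`: let `Fix ℚ⟮ρ'⟯ g`; to show `g α = α`. `c₁ g` and `g c₁`
agree on `Kmu` (automorphisms commute there) and on `ρ'`, so on `Kx ρ'`, and `α ∈ Kx ρ'`:
`c₁ (g α) = g (c₁ α) = g α`. Take `s` with `Fix Kmu s`, `s α = g α`. So `c₁ s α = s α = s c₁ α`, i.e.
`(c₁⁻¹ s⁻¹ c₁ s) α = α`. Write `s ρ' = ω ρ'`, `ω ^ p = 1`. `c₁⁻¹ s⁻¹ c₁` fixes `Kmu`, and maps `ρ'` to
`ω ρ'` (`s⁻¹ ρ' = ω⁻¹ ρ'`, `c₁⁻¹ ω⁻¹ = ω`), so agrees with `s` on `Kx ρ'` and hence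
`(s * s) α = α` (`s α ∈ Kx ρ'` as `s ρ' = ω ρ'`). Also `(s ^ p) ρ' = ρ'`, so `(s ^ p) α = α`. As `p` is
odd, `s α = α`. So `g α = α`. -/
def S_CON : Prop := ∀ (a p : ℕ) (ρ α : Qb), 2 ≤ a → p.Prime → p ≠ 2 → ρ ^ p = (a : Qb) →
  α ∈ Kx ρ → (∀ g : Aut, ∃ s : Aut, Fix Kmu s ∧ s α = g α) →
  ∃ ρ' : Qb, ρ' ^ p = (a : Qb) ∧ α ∈ ℚ⟮ρ'⟯

/-- **job FIN** (50 lines): import `Pool.Agent.Y730.RD.Final`, theorem
`Pool.Agent.Y730.RD.small_points` with `n = p`. `Admissible a p`: `wiefPrimes a p ⊆ {p}`, `p ≠ 2`,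
`¬ p² ∣ p`, and `40 log p / p ≤ log 2 ≤ log a` for `p > 400` (`log x / x` is decreasing for
`x ≥ e`; `log 400 ≤ 6`). -/
def S_FIN : Prop := ∀ (a p : ℕ) (ρ α : Qb), 2 ≤ a → Squarefree a → p.Prime → 400 < p →
  ρ ^ p = (a : Qb) → α ∈ ℚ⟮ρ⟯ → α ≠ 0 → (¬ ∃ m : ℕ, 0 < m ∧ ∃ k : ℤ, α ^ m = (a : Qb) ^ k) →
  1 / 4000 ≤ NumberField.absLogHeight₁ α

end V5helper41.PD
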